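import Pool.Agent.Lib.helper18.Vdm6

set_option autoImplicit false

open Filter Topology MvPolynomial MeasureTheory

namespace Pool.Agent.Results.MP_a839f6_an.ZtoR

/-- Plurisubharmonic on `ℂⁿ`: values in `[-∞, ∞)`, upper semicontinuous, and subharmonic on every
complex line (majorisation by real parts of polynomials on circles passes to the centre). -/
def Psh {n : ℕ} (u : (Fin n → ℂ) → EReal) : Prop :=
  UpperSemicontinuous u ∧ (∀ z, u z < ⊤) ∧ ∀ (a b : Fin n → ℂ) (q : Polynomial ℂ),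
    (∀ t : ℂ, ‖t‖ = 1 → u (a + t • b) ≤ ((q.eval t).re : ℝ)) → u a ≤ ((q.eval 0).re : ℝ)

/-- The extremal function `V_K`: supremum over the Lelong class. -/
noncomputable def V {n : ℕ} (K : Set (Fin n → ℂ)) (z : Fin n → ℂ) : EReal :=
  sSup {t | ∃ u : (Fin n → ℂ) → EReal, Psh u ∧ (∃ C : ℝ, ∀ w, u w ≤ (Real.posLog ‖w‖ + C : ℝ)) ∧
    (∀ x ∈ K, u x ≤ 0) ∧ t = u z}

/-- Exponents of the monomials of degree at most `k`. -/
abbrev Mon (n k : ℕ) := {α : Fin n → Fin (k + 1) // ∑ i, (α i : ℕ) ≤ k}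

/-- The Vandermonde determinant of degree `k`. -/
noncomputable def vdm {n : ℕ} (k : ℕ) (x : Mon n k → Fin n → ℂ) : ℂ :=
  Matrix.det (Matrix.of fun a b : Mon n k => ∏ i, x a i ^ (b.1 i : ℕ))

/-- `l_k`, the sum of the degrees of the monomials. -/
noncomputable def l (n k : ℕ) : ℝ := ∑ a : Mon n k, ∑ i, ((a.1 i : ℕ) : ℝ)

lemma maxmod {f : ℂ → ℂ} (hf : Differentiable ℂ f) (q : Polynomial ℂ) (k : ℕ)
    (h : ∀ t : ℂ, ‖t‖ = 1 → ‖f t‖ ≤ Real.exp (k * (q.eval t).re)) :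
    ‖f 0‖ ≤ Real.exp (k * (q.eval 0).re) := by
  have e : ∀ t, ‖f t * Complex.exp (-(k * q.eval t))‖ ≤ 1 ↔ ‖f t‖ ≤ Real.exp (k * (q.eval t).re) :=
    fun t => by
      rw [norm_mul, Complex.norm_exp, Complex.neg_re, Real.exp_neg, ← div_eq_mul_inv,
        div_le_one (Real.exp_pos _)]
      simp
  refine (e 0).1 (Complex.norm_le_of_forall_mem_frontier_norm_le (U := Metric.ball 0 1)
    (f := fun t => f t * Complex.exp (-(k * q.eval t))) Metric.isBounded_ball
    (hf.mul (q.differentiable.const_mul _).neg.cexp).diffContOnCl (fun z hz => (e z).2 (h z ?_))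
    (subset_closure (Metric.mem_ball_self one_pos)))
  simpa [frontier_ball _ one_ne_zero] using hz

lemma le_V {n k : ℕ} (hk : 0 < k) {K : Set (Fin n → ℂ)} {p : MvPolynomial (Fin n) ℂ}
    (hp : p.totalDegree ≤ k) (h : ∀ x ∈ K, ‖eval x p‖ ≤ 1) (z : Fin n → ℂ) :
    ((Real.log (max ‖eval z p‖ 1) / k : ℝ) : EReal) ≤ V K z := by
  have k0 : (0 : ℝ) < k := by exact_mod_cast hk
  have e : ∀ (w : Fin n → ℂ) (a : ℝ), Real.log (max ‖eval w p‖ 1) / k ≤ a ↔
      ‖eval w p‖ ≤ Real.exp (k * a) ∧ 1 ≤ Real.exp (k * a) := fun w a => by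
    rw [div_le_iff₀' k0, Real.log_le_iff_le_exp (by positivity), max_le_iff]
  refine le_sSup ⟨fun w => ((Real.log (max ‖eval w p‖ 1) / k : ℝ) : EReal), ⟨?_,
    fun _ => EReal.coe_lt_top _, fun a b q hq => ?_⟩, ?_, fun x hx => ?_, rfl⟩
  · exact (continuous_coe_real_ereal.comp (((p.continuous_eval.norm.max continuous_const).log
      fun _ => by positivity).div_const _)).upperSemicontinuous
  · simp only [EReal.coe_le_coe_iff, e] at hq ⊢
    obtain ⟨P, -, hP⟩ := H18Vdm.line p a b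
    constructor
    · simpa [hP] using maxmod P.differentiable q k fun t ht => by rw [hP]; exact (hq t ht).1
    · simpa using maxmod (differentiable_const 1) q k fun t ht => by simpa using (hq t ht).2
  · refine ⟨∑ b : H18Vdm.I n k, ‖p.coeff (H18Vdm.ex b)‖, fun w => ?_⟩
    have a0 : 0 ≤ ∑ b : H18Vdm.I n k, ‖p.coeff (H18Vdm.ex b)‖ := by positivity
    have w0 : 0 ≤ Real.posLog ‖w‖ := Real.posLog_nonneg
    rw [EReal.coe_le_coe_iff, e, H18Vdm.ev_eq hp, mul_add, Real.exp_add]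
    refine ⟨(norm_sum_le _ _).trans ((Finset.sum_le_sum (g := fun b => Real.exp (k *
      Real.posLog ‖w‖) * ‖p.coeff (H18Vdm.ex b)‖) fun b _ => ?_).trans ?_),
      one_le_mul_of_one_le_of_one_le (Real.one_le_exp (by positivity))
        (Real.one_le_exp (by positivity))⟩
    · rw [norm_mul, mul_comm, H18Vdm.E, norm_prod, Real.exp_nat_mul]
      gcongr
      refine (Finset.prod_le_prod (fun _ _ => norm_nonneg _)
        (g := fun i => Real.exp (Real.posLog ‖w‖) ^ (b.1 i : ℕ)) fun i _ => ?_).trans ?_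
      · rw [norm_pow]
        gcongr
        exact (norm_le_pi_norm w i).trans ((Real.le_exp_log _).trans
          (Real.exp_le_exp.2 (le_max_right _ _)))
      · rw [Finset.prod_pow_eq_pow_sum]
        exact pow_le_pow_right₀ (Real.one_le_exp w0) b.2
    · rw [← Finset.mul_sum]
      gcongr
      have : (1 : ℝ) ≤ k := by exact_mod_cast hk
      nlinarith [Real.add_one_le_exp (k * ∑ b : H18Vdm.I n k, ‖p.coeff (H18Vdm.ex b)‖)]
  · simp [max_eq_right (h x hx)]

lemma conv {W k I : ℝ} {a : ℂ} (k0 : 0 < k) (I0 : 0 ≤ I)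
    (h : EReal.exp W < (‖a‖ₑ / ENNReal.ofReal √I) ^ (1 / k)) : Real.exp (2 * k * W) * I < ‖a‖ ^ 2 := by
  rw [one_div, ENNReal.lt_rpow_inv_iff k0, EReal.exp_coe, ENNReal.ofReal_rpow_of_pos
    (Real.exp_pos _), ENNReal.lt_div_iff_mul_lt (by simp) (Or.inr (ENNReal.ofReal_pos.2
    (by positivity)).ne'), ← ENNReal.ofReal_mul (by positivity), ← ofReal_norm,
    ENNReal.ofReal_lt_ofReal_iff_of_nonneg (by positivity), ← Real.exp_mul] at h
  refine Eq.trans_lt ?_ (pow_lt_pow_left₀ h (by positivity) two_ne_zero)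
  rw [mul_pow, Real.sq_sqrt I0, ← Real.exp_nat_mul]
  congr 2; push_cast; ring

theorem result (n : ℕ) (hn : 1 ≤ n) (K : Set (Fin n → ℂ)) (hK : IsCompact K)
    (μ : Measure (Fin n → ℂ)) [IsFiniteMeasure μ] (hμ : μ Kᶜ = 0) (δ : ℝ)
    (hδ : Tendsto (fun k => sSup {s | ∃ x : Mon n k → Fin n → ℂ, (∀ a, x a ∈ K) ∧ s = ‖vdm k x‖} ^
      (1 / l n k)) atTop (𝓝 δ))
    (hZ : Tendsto (fun k => (∫ x, ‖vdm k x‖ ^ 2 ∂(Measure.pi fun _ : Mon n k => μ)) ^
      (1 / (2 * l n k))) atTop (𝓝 δ))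
    (p : ℕ → MvPolynomial (Fin n) ℂ) (hp : Tendsto (fun j => (p j).totalDegree) atTop atTop)
    (z : Fin n → ℂ) :
    limsup (fun j => (‖eval z (p j)‖ₑ / ENNReal.ofReal √(∫ y, ‖eval y (p j)‖ ^ 2 ∂μ)) ^
      (1 / ((p j).totalDegree : ℝ))) atTop ≤ EReal.exp (limsup (V K) (𝓝 z)) := by
  by_contra hc
  rw [not_le, ← ENNReal.log_lt_log_iff, EReal.log_exp] at hc
  obtain ⟨W, h1, h2⟩ := EReal.lt_iff_exists_real_btwn.1 hc
  obtain ⟨U, h3, h4⟩ := EReal.lt_iff_exists_real_btwn.1 h1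
  obtain ⟨ρ, ρ0, hρ⟩ := Metric.eventually_nhds_iff_ball.1 (eventually_lt_of_limsup_lt h3)
  have ne : K.Nonempty := by
    by_contra h
    have := (le_V one_pos (p := C (Real.exp (|U| + 1) : ℂ)) (by simp)
      (fun x hx => (h ⟨x, hx⟩).elim) z).trans_lt (hρ z (Metric.mem_ball_self ρ0))
    rw [eval_C, Complex.norm_real, Real.norm_of_nonneg (Real.exp_pos _).le,
      max_eq_left (Real.one_le_exp (by positivity)), Real.log_exp, EReal.coe_lt_coe_iff] at this
    norm_num at this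
    linarith [le_abs_self U]
  have hB : ∀ w ∈ Metric.ball z ρ, H18Vdm.Bd K w U := fun w hw k p s hp hs => by
    obtain ⟨x, hx⟩ := ne
    rcases Nat.eq_zero_or_pos k with rfl | hk
    · have := hs x hx
      rw [totalDegree_eq_zero_iff_eq_C.1 (Nat.le_zero.1 hp)] at this ⊢
      simpa using this
    rw [← div_le_iff₀ (Real.exp_pos _)]
    refine le_of_forall_gt_imp_ge_of_dense fun t ht => ?_
    have t0 : 0 < t := ((norm_nonneg _).trans (hs x hx)).trans_lt ht
    have e : ∀ y, ‖eval y (C (t⁻¹ : ℂ) * p)‖ = ‖eval y p‖ / t := fun y => by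
      simp [abs_of_pos t0, div_eq_inv_mul]
    have := ((le_V hk (p := C (t⁻¹ : ℂ) * p) ((totalDegree_mul _ _).trans (by simpa))
      (fun y hy => by rw [e, div_le_one t0]; exact (hs y hy).trans ht.le) w).trans_lt (hρ w hw)).le
    rw [EReal.coe_le_coe_iff, e, div_le_iff₀' (by exact_mod_cast hk),
      Real.log_le_iff_le_exp (by positivity), max_le_iff] at this
    rw [div_le_iff₀ (Real.exp_pos _), ← div_le_iff₀' t0]
    exact this.1
  obtain ⟨R, R0, hR⟩ := hK.isBounded.exists_pos_norm_le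
  obtain ⟨r, hr⟩ : ∃ r, r = ρ / (R + 2 + ‖z‖) := ⟨_, rfl⟩
  have r0 : 0 < r := by rw [hr]; positivity
  have hl : ∀ y, ‖y‖ ≤ R + 1 → ∀ t : ℂ, ‖t‖ = r → H18Vdm.Bd K (z + t • (y - z)) U :=
    fun y hy t ht => hB _ (by
      rw [Metric.mem_ball, dist_self_add_left, norm_smul, ht, hr, div_mul_eq_mul_div,
        div_lt_iff₀ (by positivity)]
      gcongr
      linarith [norm_sub_le y z])
  have hM : ∀ y, ‖y‖ ≤ 1 → H18Vdm.Bd K y (Real.log ((1 + r) / r) + U) := fun y hy k q s hq hs => by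
    have := H18Vdm.prod_ineq (k := 0) (p := 1) r0 (hl y (by linarith)) (by simp) hq
      (by simpa using hs)
    rw [mul_add, Real.exp_add, Real.exp_nat_mul, Real.exp_log (by positivity), mul_left_comm]
    simpa using this
  obtain ⟨d, hd⟩ := H18Vdm.zaharjuta hK ne hM hn
  obtain rfl : δ = Real.exp d := tendsto_nhds_unique hδ (H18Vdm.V_lim hK ne hM hd)
  have e0 : 0 < (W - U) / 2 := half_pos (sub_pos.2 (EReal.coe_lt_coe_iff.1 h4))
  refine H18Vdm.core hK hμ ne hM hn hd (W := U) r0 e0 (fun A => ?_) hZ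
  rw [← EReal.log_exp W, ENNReal.log_lt_log_iff] at h2
  obtain ⟨j, h5, h6, h7⟩ := ((frequently_lt_of_lt_limsup (by isBoundedDefault) h2).and_eventually
    ((hp.eventually_gt_atTop 0).and ((tendsto_natCast_atTop_atTop.comp hp).eventually_ge_atTop
      (A / (W - U))))).exists
  refine ⟨_, p j, z, le_rfl, fun y hy => hl y (by linarith [hR y hy]), ?_⟩
  have k0 : (0 : ℝ) < (p j).totalDegree := by exact_mod_cast h6
  refine lt_of_le_of_lt (mul_le_mul_of_nonneg_right (Real.exp_le_exp.2 ?_)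
    (integral_nonneg fun _ => by positivity)) (conv k0 (integral_nonneg fun _ => by positivity) h5)
  rw [Function.comp_apply, div_le_iff₀ (by linarith)] at h7
  linarith

end Pool.Agent.Results.MP_a839f6_an.ZtoR
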